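import Mathlib

/-!
# MP_521650_an, Q1: the answer is yes

With `τ = (√5 - 1)/2`, take the five maps `x ↦ x/2 + (a + b τ)/4` (`a, b ∈ {0, 1}`) and
`x ↦ 1 - x/2` of the line.  The attractor is `[0, 1]`, and with `z = 0` one has `W_s(z) = [0, 1]`
for every `0 < s < 2`.
-/

namespace Pool.Agent.Results.MP_521650_an.DirichletImprovement

/-- `φ_a = φ_{a_1} ∘ ⋯ ∘ φ_{a_n}` for a word `a = a_1 ⋯ a_n`. -/
def phiWord {l : ℕ} (φ : Fin l → ℝ → ℝ) : List (Fin l) → ℝ → ℝ
  | [] => id
  | i :: a => φ i ∘ phiWord φ a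

/-- An iterated function system on `ℝ` (the case `d = 1`): at least two maps, all of them injective
contractions. -/
def IsIFS {l : ℕ} (φ : Fin l → ℝ → ℝ) : Prop :=
  2 ≤ l ∧ ∀ i, Function.Injective (φ i) ∧ ∃ K : NNReal, K < 1 ∧ LipschitzWith K (φ i)

/-- `X` is the attractor: non-empty, compact and equal to `⋃ φ_i(X)`. -/
def IsAttractor {l : ℕ} (φ : Fin l → ℝ → ℝ) (X : Set ℝ) : Prop :=
  X.Nonempty ∧ IsCompact X ∧ X = ⋃ i, φ i '' X

/-- `W_s(z)`, the points `x` with `|x - φ_a(z)| ≤ Diam(X_a)^s` for infinitely many words `a`. -/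
def W {l : ℕ} (φ : Fin l → ℝ → ℝ) (X : Set ℝ) (s z : ℝ) : Set ℝ :=
  {x | {a : List (Fin l) | |x - phiWord φ a z| ≤ Metric.diam (phiWord φ a '' X) ^ s}.Infinite}

/-! ### The golden number -/

/-- `τ = (√5 - 1)/2` -/
noncomputable def tau : ℝ := (Real.sqrt 5 - 1) / 2

lemma tau_sq : tau ^ 2 = 1 - tau := by
  have h : Real.sqrt 5 ^ 2 = 5 := Real.sq_sqrt (by norm_num)
  unfold tau; nlinarith

lemma tau_lt : tau < 0.62 := by
  have : Real.sqrt 5 < 2.24 := by
    rw [Real.sqrt_lt' (by norm_num)]; norm_num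
  unfold tau; linarith

lemma tau_gt : 0.61 < tau := by
  have : 2.22 < Real.sqrt 5 := by
    rw [Real.lt_sqrt (by norm_num)]; norm_num
  unfold tau; linarith

lemma tau_irr : Irrational tau := by
  have h5 : Irrational (Real.sqrt 5) := by
    have := Nat.Prime.irrational_sqrt (show Nat.Prime 5 by norm_num)
    exact_mod_cast this
  intro ⟨q, hq⟩
  apply h5
  refine ⟨2 * q + 1, ?_⟩
  push_cast
  rw [hq]; unfold tau; ring

/-- good rational approximations with denominator comparable to `n` -/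
lemma good_den {n : ℕ} (hn : 1 ≤ n) : ∃ r : ℚ, |tau - r| ≤ 1 / (((n : ℝ) + 1) * r.den) ∧
    r.den ≤ n ∧ (n : ℝ) + 1 ≤ 3.24 * r.den := by
  obtain ⟨r, hr, hden⟩ := Real.exists_rat_abs_sub_le_and_den_le tau (show 0 < n by omega)
  refine ⟨r, hr, hden, ?_⟩
  have ht0 := tau_gt
  have ht1 := tau_lt
  have hsq := tau_sq
  have hq1 : (1 : ℝ) ≤ r.den := by exact_mod_cast r.pos
  have hn1 : (1 : ℝ) ≤ n := by exact_mod_cast hn
  set q : ℝ := (r.den : ℝ) with hq
  set p : ℝ := (r.num : ℝ) with hp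
  have hrpq : (r : ℝ) = p / q := by rw [hp, hq]; exact_mod_cast (Rat.num_div_den r).symm
  have hmul : |p - q * tau| ≤ 1 / ((n : ℝ) + 1) := by
    have : p - q * tau = -(q * (tau - r)) := by rw [hrpq]; field_simp; ring
    rw [this, abs_neg, abs_mul, abs_of_pos (by linarith : (0:ℝ) < q)]
    calc q * |tau - r| ≤ q * (1 / (((n : ℝ) + 1) * q)) :=
          mul_le_mul_of_nonneg_left hr (by linarith)
      _ = 1 / ((n : ℝ) + 1) := by field_simp
  have hle1 : 1 / ((n : ℝ) + 1) ≤ 1 := by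
    rw [div_le_one (by positivity)]; linarith
  have hint : (p - q * tau) * (p + q + q * tau) = ((r.num ^ 2 + r.num * r.den - (r.den : ℤ) ^ 2 : ℤ) : ℝ) := by
    push_cast
    rw [← hp, ← hq]
    have : (p - q * tau) * (p + q + q * tau) = p ^ 2 + p * q - (tau + tau ^ 2) * q ^ 2 := by ring
    rw [this, hsq]; ring
  have hne : (r.num ^ 2 + r.num * r.den - (r.den : ℤ) ^ 2 : ℤ) ≠ 0 := by
    intro h0
    rw [h0, Int.cast_zero, mul_eq_zero] at hint
    rcases hint with h | h
    · apply tau_irr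
      refine ⟨r, ?_⟩
      rw [hrpq, div_eq_iff (by linarith)]; linarith
    · apply tau_irr
      refine ⟨-1 - r, ?_⟩
      push_cast
      rw [hrpq, sub_eq_iff_eq_add, ← sub_eq_iff_eq_add', eq_div_iff (by linarith)]
      linarith
  have h1 : (1 : ℝ) ≤ |(p - q * tau) * (p + q + q * tau)| := by
    rw [hint]
    have := Int.one_le_abs hne
    exact_mod_cast this
  have h2 : |p + q + q * tau| ≤ 3.24 * q := by
    have h3 := abs_le.1 (hmul.trans hle1)
    rw [abs_le]
    constructor <;> nlinarith [h3.1, h3.2]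
  rw [abs_mul] at h1
  have h3 : (1 : ℝ) ≤ 1 / ((n : ℝ) + 1) * (3.24 * q) :=
    h1.trans (mul_le_mul hmul h2 (abs_nonneg _) (by positivity))
  rw [div_mul_eq_mul_div, one_mul, le_div_iff₀ (by positivity)] at h3
  linarith

/-- inhomogeneous approximation -/
lemma inhom {n : ℕ} (hn : 1 ≤ n) (y : ℝ) (M : ℤ) : ∃ A B : ℤ, M ≤ B ∧ B < M + n ∧
    |y - A - B * tau| ≤ 3 / ((n : ℝ) + 1) := by
  obtain ⟨r, hr, hden, hbig⟩ := good_den hn
  set q : ℤ := (r.den : ℤ) with hq
  have hq0 : 0 < q := by rw [hq]; exact_mod_cast r.pos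
  have hqR : (0 : ℝ) < q := by exact_mod_cast hq0
  -- target
  set y' : ℝ := y - M * tau with hy'
  set m : ℤ := round (q * y') with hm
  -- solve `B' p ≡ m mod q`
  have hcop : IsCoprime r.num q := by
    rw [hq, Int.isCoprime_iff_gcd_eq_one]
    exact r.reduced
  obtain ⟨u, v, huv⟩ := hcop
  set B' : ℤ := (m * u) % q with hB'
  have hB0 : 0 ≤ B' := Int.emod_nonneg _ hq0.ne'
  have hB1 : B' < q := Int.emod_lt_of_pos _ hq0
  have hdiv : q ∣ m - B' * r.num := by
    have h1 : q ∣ m * u - B' := by rw [hB']; exact Int.dvd_self_sub_emod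
    have h2 : m - B' * r.num = (m * u - B') * r.num + m * v * q := by
      have : m = m * (u * r.num + v * q) := by rw [huv, mul_one]
      nlinarith
    rw [h2]
    exact dvd_add (Dvd.dvd.mul_right h1 _) (Dvd.intro_left _ rfl)
  obtain ⟨A, hA⟩ := hdiv
  refine ⟨A, M + B', by omega, ?_, ?_⟩
  · have : q ≤ n := by rw [hq]; exact_mod_cast hden
    omega
  · have hn1 : (1 : ℝ) ≤ n := by exact_mod_cast hn
    have hrr : (r : ℝ) = r.num / q := by
      rw [hq]; push_cast; exact_mod_cast (Rat.num_div_den r).symm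
    have hAR : (m : ℝ) - B' * r.num = q * A := by exact_mod_cast hA
    have heq : y - A - ((M + B' : ℤ) : ℝ) * tau = (y' - m / q) - B' * (tau - r) := by
      have : (A : ℝ) = (m - B' * r.num) / q := by rw [hAR]; field_simp
      rw [this, hrr, hy']; push_cast; field_simp; ring
    rw [heq]
    have h1 : |y' - m / q| ≤ 1 / (2 * q) := by
      have h2 : |(q : ℝ) * y' - m| ≤ 1 / 2 := abs_sub_round _
      have h3 : y' - m / q = (q * y' - m) / q := by field_simp
      rw [h3, abs_div, abs_of_pos hqR, div_le_div_iff₀ hqR (by positivity)]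
      nlinarith
    have h4 : |(B' : ℝ) * (tau - r)| ≤ 1 / ((n : ℝ) + 1) := by
      rw [abs_mul, abs_of_nonneg (by exact_mod_cast hB0 : (0:ℝ) ≤ B')]
      have hBq : (B' : ℝ) ≤ q := by exact_mod_cast hB1.le
      calc (B' : ℝ) * |tau - r| ≤ q * (1 / (((n : ℝ) + 1) * r.den)) :=
            mul_le_mul hBq hr (abs_nonneg _) hqR.le
        _ = 1 / ((n : ℝ) + 1) := by
          have : (q : ℝ) = r.den := by rw [hq]; push_cast; rfl
          rw [this]
          have : (r.den : ℝ) ≠ 0 := by exact_mod_cast r.den_nz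
          field_simp
    have h5 : 1 / (2 * (q : ℝ)) ≤ 2 / ((n : ℝ) + 1) := by
      have : (q : ℝ) = r.den := by rw [hq]; push_cast; rfl
      rw [div_le_div_iff₀ (by positivity) (by positivity), this]
      have : (0:ℝ) < r.den := by exact_mod_cast r.pos
      linarith
    calc |y' - m / q - B' * (tau - r)| ≤ |y' - m / q| + |(B' : ℝ) * (tau - r)| := abs_sub _ _
      _ ≤ 2 / ((n : ℝ) + 1) + 1 / ((n : ℝ) + 1) := by linarith
      _ = 3 / ((n : ℝ) + 1) := by ring

/-! ### The iterated function system -/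

/-- The five maps. -/
noncomputable def phi : Fin 5 → ℝ → ℝ :=
  ![fun x => x / 2, fun x => x / 2 + 1 / 4, fun x => x / 2 + tau / 4,
    fun x => x / 2 + (1 + tau) / 4, fun x => 1 - x / 2]

lemma phi_affine (i : Fin 5) : ∃ σ c : ℝ, |σ| = 1 ∧ ∀ x, phi i x = σ * x / 2 + c := by
  fin_cases i
  · exact ⟨1, 0, by simp, fun x => by simp [phi]⟩
  · exact ⟨1, 1 / 4, by simp, fun x => by simp [phi]⟩
  · exact ⟨1, tau / 4, by simp, fun x => by simp [phi]⟩
  · exact ⟨1, (1 + tau) / 4, by simp, fun x => by simp [phi]⟩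
  · exact ⟨-1, 1, by simp, fun x => by simp [phi]; ring⟩

lemma word_affine (a : List (Fin 5)) :
    ∃ σ c : ℝ, |σ| = 1 ∧ ∀ x, phiWord phi a x = σ * x / 2 ^ a.length + c := by
  induction a with
  | nil => exact ⟨1, 0, by simp, fun x => by simp [phiWord]⟩
  | cons i a ih =>
    obtain ⟨σ, c, hσ, h⟩ := ih
    obtain ⟨σ', c', hσ', h'⟩ := phi_affine i
    refine ⟨σ' * σ, σ' * c / 2 + c', by rw [abs_mul, hσ, hσ', one_mul], fun x => ?_⟩
    simp only [phiWord, Function.comp_apply, h, h', List.length_cons, pow_succ]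
    field_simp
    ring

lemma word_dist (a : List (Fin 5)) (x y : ℝ) :
    |phiWord phi a x - phiWord phi a y| = |x - y| / 2 ^ a.length := by
  obtain ⟨σ, c, hσ, h⟩ := word_affine a
  rw [h, h]
  have : σ * x / 2 ^ a.length + c - (σ * y / 2 ^ a.length + c) = σ * ((x - y) / 2 ^ a.length) := by
    ring
  rw [this, abs_mul, hσ, one_mul, abs_div, abs_of_pos (by positivity : (0:ℝ) < 2 ^ a.length)]

lemma diam_word (a : List (Fin 5)) :
    Metric.diam (phiWord phi a '' Set.Icc 0 1) = 1 / 2 ^ a.length := by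
  apply le_antisymm
  · apply Metric.diam_le_of_forall_dist_le (by positivity)
    rintro _ ⟨x, hx, rfl⟩ _ ⟨y, hy, rfl⟩
    rw [Real.dist_eq, word_dist]
    apply div_le_div_of_nonneg_right _ (by positivity)
    rw [abs_le]
    constructor <;> linarith [hx.1, hx.2, hy.1, hy.2]
  · have hb : Bornology.IsBounded (phiWord phi a '' Set.Icc 0 1) := by
      apply Bornology.IsBounded.subset (Metric.isBounded_closedBall (x := phiWord phi a 0) (r := 1))
      rintro _ ⟨x, hx, rfl⟩
      rw [Metric.mem_closedBall, Real.dist_eq, word_dist]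
      rw [div_le_iff₀ (by positivity), one_mul, abs_le]
      have : (1 : ℝ) ≤ 2 ^ a.length := one_le_pow₀ (by norm_num)
      constructor <;> linarith [hx.1, hx.2]
    have h := Metric.dist_le_diam_of_mem hb (Set.mem_image_of_mem _ (Set.left_mem_Icc.2 zero_le_one))
      (Set.mem_image_of_mem _ (Set.right_mem_Icc.2 zero_le_one))
    rw [Real.dist_eq, word_dist] at h
    simpa using h

lemma phi_maps (i : Fin 5) {x : ℝ} (hx : x ∈ Set.Icc (0 : ℝ) 1) : phi i x ∈ Set.Icc (0 : ℝ) 1 := by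
  have h0 := tau_gt
  have h1 := tau_lt
  obtain ⟨hx0, hx1⟩ := hx
  fin_cases i <;> simp [phi] <;> constructor <;> linarith

lemma word_maps (a : List (Fin 5)) {x : ℝ} (hx : x ∈ Set.Icc (0 : ℝ) 1) :
    phiWord phi a x ∈ Set.Icc (0 : ℝ) 1 := by
  induction a with
  | nil => exact hx
  | cons i a ih => exact phi_maps i ih

lemma isIFS : IsIFS phi := by
  refine ⟨by norm_num, fun i => ?_⟩
  obtain ⟨σ, c, hσ, h⟩ := phi_affine i
  have hσ0 : σ ≠ 0 := by
    intro h0; rw [h0] at hσ; simp at hσ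
  refine ⟨fun x y hxy => ?_, 1 / 2, by
    rw [div_lt_one (by norm_num)]; norm_num, ?_⟩
  · rw [h, h] at hxy
    have : σ * x = σ * y := by linarith
    exact mul_left_cancel₀ hσ0 this
  · apply LipschitzWith.of_dist_le_mul
    intro x y
    rw [Real.dist_eq, Real.dist_eq, h, h]
    have : σ * x / 2 + c - (σ * y / 2 + c) = σ * ((x - y) / 2) := by ring
    rw [this, abs_mul, hσ, one_mul, abs_div]
    simp
    linarith [abs_nonneg (x - y)]

lemma isAttractor : IsAttractor phi (Set.Icc 0 1) := by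
  refine ⟨⟨0, by simp⟩, isCompact_Icc, ?_⟩
  apply Set.Subset.antisymm
  · intro x hx
    rw [Set.mem_iUnion]
    rcases le_total x (1 / 2) with h | h
    · refine ⟨0, 2 * x, ⟨by linarith [hx.1], by linarith⟩, ?_⟩
      simp [phi]
    · refine ⟨4, 2 - 2 * x, ⟨by linarith [hx.2], by linarith⟩, ?_⟩
      simp [phi]; ring
  · intro x hx
    rw [Set.mem_iUnion] at hx
    obtain ⟨i, y, hy, rfl⟩ := hx
    exact phi_maps i hy

/-- All numbers `(A + B τ)/2^(k+1)` with `0 ≤ A, B < 2^k` are images of `0` under words of length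
`k`. -/
lemma digits (k : ℕ) : ∀ A B : ℕ, A < 2 ^ k → B < 2 ^ k →
    ∃ a : List (Fin 5), a.length = k ∧ phiWord phi a 0 = (A + B * tau) / 2 ^ (k + 1) := by
  induction k with
  | zero =>
    intro A B hA hB
    have hA' : A = 0 := by simpa using hA
    have hB' : B = 0 := by simpa using hB
    refine ⟨[], rfl, ?_⟩
    simp [phiWord, hA', hB']
  | succ k ih =>
    intro A B hA hB
    have h2 : 0 < 2 ^ k := by positivity
    obtain ⟨a, ha, hval⟩ := ih (A % 2 ^ k) (B % 2 ^ k) (Nat.mod_lt _ h2) (Nat.mod_lt _ h2)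
    have hA1 : A / 2 ^ k < 2 := by rw [Nat.div_lt_iff_lt_mul h2]; rw [pow_succ] at hA; linarith
    have hB1 : B / 2 ^ k < 2 := by rw [Nat.div_lt_iff_lt_mul h2]; rw [pow_succ] at hB; linarith
    have hAd : (A : ℝ) = (A / 2 ^ k : ℕ) * 2 ^ k + (A % 2 ^ k : ℕ) := by
      have := Nat.div_add_mod A (2 ^ k)
      have h3 : ((2 ^ k * (A / 2 ^ k) + A % 2 ^ k : ℕ) : ℝ) = (A : ℝ) := by rw [this]
      push_cast at h3 ⊢
      linarith
    have hBd : (B : ℝ) = (B / 2 ^ k : ℕ) * 2 ^ k + (B % 2 ^ k : ℕ) := by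
      have := Nat.div_add_mod B (2 ^ k)
      have h3 : ((2 ^ k * (B / 2 ^ k) + B % 2 ^ k : ℕ) : ℝ) = (B : ℝ) := by rw [this]
      push_cast at h3 ⊢
      linarith
    -- the first letter
    obtain ⟨i, hi⟩ : ∃ i : Fin 5, ∀ x, phi i x =
        x / 2 + ((A / 2 ^ k : ℕ) + (B / 2 ^ k : ℕ) * tau) / 4 := by
      have hA2 : A / 2 ^ k = 0 ∨ A / 2 ^ k = 1 := by
        generalize A / 2 ^ k = u at hA1; omega
      have hB2 : B / 2 ^ k = 0 ∨ B / 2 ^ k = 1 := by
        generalize B / 2 ^ k = u at hB1; omega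
      rcases hA2 with h | h <;> rcases hB2 with h' | h' <;> rw [h, h']
      · exact ⟨0, fun x => by simp [phi]⟩
      · exact ⟨2, fun x => by simp [phi]⟩
      · exact ⟨1, fun x => by simp [phi]⟩
      · exact ⟨3, fun x => by simp [phi]⟩
    refine ⟨i :: a, by simp [ha], ?_⟩
    change phi i (phiWord phi a 0) = _
    rw [hi, hval, hAd, hBd]
    field_simp
    ring

/-- The property proved for every `x ∈ [0, 1]`. -/
def P (x : ℝ) : Prop :=
  ∃ C : ℝ, 0 < C ∧ ∃ k₀ : ℕ, ∀ k ≥ k₀, ∃ a : List (Fin 5), a.length = k ∧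
    |x - phiWord phi a 0| ≤ C / 4 ^ k

lemma P_mid {x : ℝ} (hx0 : 1 / 4 ≤ x) (hx1 : x ≤ 3 / 4) : P x := by
  refine ⟨24, by norm_num, 8, fun k hk => ?_⟩
  have ht0 := tau_gt
  have ht1 := tau_lt
  obtain ⟨j, rfl⟩ : ∃ j, k = j + 4 := ⟨k - 4, by omega⟩
  have hj4 : 4 ≤ j := by omega
  set n : ℕ := 2 ^ j with hn
  have hn16 : 16 ≤ n := by
    calc 16 = 2 ^ 4 := by norm_num
      _ ≤ 2 ^ j := Nat.pow_le_pow_right (by norm_num) hj4
  have hnR : (16 : ℝ) ≤ n := by exact_mod_cast hn16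
  have h2k : (2 : ℝ) ^ (j + 4) = 16 * n := by
    rw [hn, pow_add]; push_cast; ring
  set y : ℝ := 2 ^ (j + 4 + 1) * x with hy
  have hyn : y = 32 * n * x := by rw [hy, pow_succ, h2k]; ring
  have hy0 : 8 * (n : ℝ) ≤ y := by rw [hyn]; nlinarith
  have hy1 : y ≤ 24 * n := by rw [hyn]; nlinarith
  set M : ℤ := ⌊(y - 8 * n) * (7 / 8)⌋ with hM
  have hM0 : 0 ≤ M := by
    rw [hM]; apply Int.floor_nonneg.2
    nlinarith
  have hMle : (M : ℝ) ≤ (y - 8 * n) * (7 / 8) := Int.floor_le _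
  have hMgt : (y - 8 * n) * (7 / 8) - 1 < M := Int.sub_one_lt_floor _
  obtain ⟨A, B, hB0, hB1, hAB⟩ := inhom (show 1 ≤ n by omega) y M
  have herr : 3 / ((n : ℝ) + 1) ≤ 3 / 17 := by
    apply div_le_div_of_nonneg_left (by norm_num) (by norm_num); linarith
  have hAB' := abs_le.1 (hAB.trans herr)
  have hB0R : (M : ℝ) ≤ B := by exact_mod_cast hB0
  have hB1R : (B : ℝ) < M + n := by exact_mod_cast hB1
  have hBnn : 0 ≤ B := by omega
  have hB2 : (B : ℝ) < 16 * n := by nlinarith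
  have hB2' : B < 2 ^ (j + 4) := by
    have : (B : ℝ) < ((2 ^ (j + 4) : ℤ) : ℝ) := by push_cast; rw [h2k]; exact hB2
    exact_mod_cast this
  have hAnn : -1 < A := by
    have h1 : (B : ℝ) * tau ≤ ((y - 8 * n) * (7 / 8) + n) * 0.62 := by
      have h2 : (B : ℝ) ≤ (y - 8 * n) * (7 / 8) + n := by linarith
      have h3 : (0 : ℝ) ≤ B := by exact_mod_cast hBnn
      calc (B : ℝ) * tau ≤ B * 0.62 := mul_le_mul_of_nonneg_left ht1.le h3
        _ ≤ ((y - 8 * n) * (7 / 8) + n) * 0.62 := mul_le_mul_of_nonneg_right h2 (by norm_num)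
    have : (-1 : ℝ) < A := by nlinarith [hAB'.1, hAB'.2]
    exact_mod_cast this
  have hA2 : A < 2 ^ (j + 4) := by
    have h1 : ((y - 8 * n) * (7 / 8) - 1) * 0.61 ≤ (B : ℝ) * tau := by
      rcases le_total 0 ((y - 8 * n) * (7 / 8) - 1) with h | h
      · exact mul_le_mul (by linarith) ht0.le (by norm_num) (by linarith)
      · have h3 : (0 : ℝ) ≤ B := by exact_mod_cast hBnn
        have h4 : ((y - 8 * n) * (7 / 8) - 1) * 0.61 ≤ 0 := by nlinarith
        have h5 : 0 ≤ (B : ℝ) * tau := mul_nonneg h3 (by linarith)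
        linarith
    have : (A : ℝ) < ((2 ^ (j + 4) : ℤ) : ℝ) := by
      push_cast; rw [h2k]
      nlinarith [hAB'.1, hAB'.2]
    exact_mod_cast this
  obtain ⟨A', rfl⟩ := Int.eq_ofNat_of_zero_le (show 0 ≤ A by omega)
  obtain ⟨B', rfl⟩ := Int.eq_ofNat_of_zero_le hBnn
  obtain ⟨a, ha, hval⟩ := digits (j + 4) A' B' (by exact_mod_cast hA2) (by exact_mod_cast hB2')
  refine ⟨a, ha, ?_⟩
  rw [hval]
  have hxy : x = y / 2 ^ (j + 4 + 1) := by rw [hy]; field_simp
  have h3 : x - ((A' : ℝ) + B' * tau) / 2 ^ (j + 4 + 1) = (y - A' - B' * tau) / 2 ^ (j + 4 + 1) := by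
    rw [hxy]; ring
  rw [h3, abs_div, abs_of_pos (by positivity : (0:ℝ) < 2 ^ (j + 4 + 1))]
  have h4 : (4 : ℝ) ^ (j + 4) = (16 * n) * (16 * n) := by
    rw [show (4 : ℝ) = 2 * 2 by norm_num, mul_pow, h2k]
  rw [h4, pow_succ, h2k]
  have h5 : |y - A' - B' * tau| ≤ 3 / ((n : ℝ) + 1) := by exact_mod_cast hAB
  have h6 : 3 / ((n : ℝ) + 1) ≤ 3 / n := by
    apply div_le_div_of_nonneg_left (by norm_num) (by linarith); linarith
  rw [div_le_div_iff₀ (by positivity) (by positivity)]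
  calc |y - A' - B' * tau| * (16 * n * (16 * n)) ≤ 3 / n * (16 * n * (16 * n)) :=
        mul_le_mul_of_nonneg_right (h5.trans h6) (by positivity)
    _ = 24 * (16 * n * 2) := by field_simp; norm_num

lemma P_half {x : ℝ} (h : P x) : P (x / 2) := by
  obtain ⟨C, hC, k₀, hk⟩ := h
  refine ⟨2 * C, by linarith, k₀ + 1, fun k hkk => ?_⟩
  obtain ⟨j, rfl⟩ : ∃ j, k = j + 1 := ⟨k - 1, by omega⟩
  obtain ⟨a, ha, hle⟩ := hk j (by omega)
  refine ⟨0 :: a, by simp [ha], ?_⟩
  have : x / 2 - phiWord phi (0 :: a) 0 = (x - phiWord phi a 0) / 2 := by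
    simp [phiWord, phi]; ring
  rw [this, abs_div, abs_of_pos (by norm_num : (0:ℝ) < 2), pow_succ]
  rw [le_div_iff₀ (by positivity)] at hle ⊢
  linarith

lemma P_rev {x : ℝ} (h : P x) : P (1 - x / 2) := by
  obtain ⟨C, hC, k₀, hk⟩ := h
  refine ⟨2 * C, by linarith, k₀ + 1, fun k hkk => ?_⟩
  obtain ⟨j, rfl⟩ : ∃ j, k = j + 1 := ⟨k - 1, by omega⟩
  obtain ⟨a, ha, hle⟩ := hk j (by omega)
  refine ⟨4 :: a, by simp [ha], ?_⟩
  have : 1 - x / 2 - phiWord phi (4 :: a) 0 = -((x - phiWord phi a 0) / 2) := by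
    simp [phiWord, phi]; ring
  rw [this, abs_neg, abs_div, abs_of_pos (by norm_num : (0:ℝ) < 2), pow_succ]
  rw [le_div_iff₀ (by positivity)] at hle ⊢
  linarith

lemma P_zero : P 0 := by
  refine ⟨1, one_pos, 0, fun k _ => ⟨List.replicate k 0, by simp, ?_⟩⟩
  have : phiWord phi (List.replicate k 0) 0 = 0 := by
    induction k with
    | zero => rfl
    | succ k ih =>
      rw [List.replicate_succ]
      change phi 0 (phiWord phi (List.replicate k 0) 0) = 0
      rw [ih (by omega)]; simp [phi]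
  rw [this]; simp

lemma P_low (m : ℕ) : ∀ x : ℝ, 1 / 2 ^ (m + 2) ≤ x → x ≤ 3 / 4 → P x := by
  induction m with
  | zero => intro x h0 h1; exact P_mid (by norm_num at h0; linarith) h1
  | succ m ih =>
    intro x h0 h1
    rcases le_total (1 / 4) x with h | h
    · exact P_mid h h1
    · have h2 := ih (2 * x) (by
        rw [div_le_iff₀ (by positivity)] at h0 ⊢
        rw [pow_succ] at h0; linarith) (by linarith)
      have := P_half h2
      rwa [mul_div_cancel_left₀ _ (by norm_num : (2:ℝ) ≠ 0)] at this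

lemma P_of_le {x : ℝ} (h0 : 0 ≤ x) (h1 : x ≤ 3 / 4) : P x := by
  rcases h0.eq_or_lt with h | h
  · rw [← h]; exact P_zero
  · obtain ⟨m, hm⟩ := exists_pow_lt_of_lt_one h (show (1 / 2 : ℝ) < 1 by norm_num)
    apply P_low m x _ h1
    have : (1 : ℝ) / 2 ^ (m + 2) ≤ (1 / 2) ^ m := by
      rw [div_pow, one_pow]
      apply div_le_div_of_nonneg_left (by norm_num) (by positivity)
      exact pow_le_pow_right₀ (by norm_num) (by omega)
    linarith

lemma P_all {x : ℝ} (hx : x ∈ Set.Icc (0 : ℝ) 1) : P x := by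
  rcases le_total x (3 / 4) with h | h
  · exact P_of_le hx.1 h
  · have := P_rev (P_of_le (x := 2 * (1 - x)) (by linarith [hx.2]) (by linarith))
    have h2 : 1 - 2 * (1 - x) / 2 = x := by ring
    rwa [h2] at this

lemma W_eq {s : ℝ} (hs0 : 0 < s) (hs2 : s < 2) : W phi (Set.Icc 0 1) s 0 = Set.Icc 0 1 := by
  apply Set.Subset.antisymm
  · intro x hx
    by_contra hnot
    -- the distance of `x` to `[0, 1]` is positive
    obtain ⟨δ, hδ, hdist⟩ : ∃ δ > 0, ∀ y ∈ Set.Icc (0 : ℝ) 1, δ ≤ |x - y| := by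
      rw [Set.mem_Icc, not_and_or] at hnot
      push Not at hnot
      rcases hnot with h | h
      · refine ⟨-x, by linarith, fun y hy => ?_⟩
        rw [abs_sub_comm, abs_of_nonneg (by linarith [hy.1])]; linarith [hy.1]
      · refine ⟨x - 1, by linarith, fun y hy => ?_⟩
        rw [abs_of_nonneg (by linarith [hy.2])]; linarith [hy.2]
    apply hx
    -- long words have small diameter
    have hlim : Filter.Tendsto (fun k : ℕ => ((1 : ℝ) / 2 ^ k) ^ s) Filter.atTop (nhds 0) := by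
      have h1 : Filter.Tendsto (fun k : ℕ => (1 : ℝ) / 2 ^ k) Filter.atTop (nhds 0) := by
        have := tendsto_pow_atTop_nhds_zero_of_lt_one (r := (1 / 2 : ℝ)) (by norm_num) (by norm_num)
        refine this.congr fun k => by rw [div_pow, one_pow]
      have h2 := h1.rpow_const (p := s) (Or.inr hs0.le)
      rwa [Real.zero_rpow hs0.ne'] at h2
    obtain ⟨K, hK⟩ := Filter.eventually_atTop.1 (hlim.eventually (gt_mem_nhds hδ))
    have hfin : {a : List (Fin 5) | a.length < K}.Finite := List.finite_length_lt (Fin 5) K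
    apply hfin.subset
    intro a ha
    change |x - phiWord phi a 0| ≤ Metric.diam (phiWord phi a '' Set.Icc 0 1) ^ s at ha
    rw [diam_word] at ha
    by_contra hge
    have hge' : K ≤ a.length := by
      by_contra hlt
      exact hge (by simpa using hlt)
    have h1 := hK a.length hge'
    have h2 := hdist _ (word_maps a (show (0:ℝ) ∈ Set.Icc (0:ℝ) 1 by simp))
    linarith
  · intro x hx
    obtain ⟨C, hC, k₀, hk⟩ := P_all hx
    -- for large `k`, `C / 4^k ≤ (1/2^k)^s`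
    have hlim : Filter.Tendsto (fun k : ℕ => C * ((1 : ℝ) / 2 ^ k) ^ (2 - s)) Filter.atTop
        (nhds 0) := by
      have h1 : Filter.Tendsto (fun k : ℕ => (1 : ℝ) / 2 ^ k) Filter.atTop (nhds 0) := by
        have := tendsto_pow_atTop_nhds_zero_of_lt_one (r := (1 / 2 : ℝ)) (by norm_num) (by norm_num)
        refine this.congr fun k => by rw [div_pow, one_pow]
      have h2 := (h1.rpow_const (p := 2 - s) (Or.inr (by linarith))).const_mul C
      rwa [Real.zero_rpow (by linarith), mul_zero] at h2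
    obtain ⟨K, hK⟩ := Filter.eventually_atTop.1 (hlim.eventually (gt_mem_nhds one_pos))
    change {a : List (Fin 5) | |x - phiWord phi a 0| ≤
      Metric.diam (phiWord phi a '' Set.Icc 0 1) ^ s}.Infinite
    have hall : ∀ k, max k₀ K ≤ k → ∃ a : List (Fin 5), a.length = k ∧
        |x - phiWord phi a 0| ≤ Metric.diam (phiWord phi a '' Set.Icc 0 1) ^ s := by
      intro k hkk
      obtain ⟨a, ha, hle⟩ := hk k ((le_max_left _ _).trans hkk)
      refine ⟨a, ha, hle.trans ?_⟩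
      rw [diam_word, ha]
      have h3 := (hK k ((le_max_right _ _).trans hkk)).le
      have h4 : (0 : ℝ) < 1 / 2 ^ k := by positivity
      have h5 : (1 : ℝ) / 4 ^ k = (1 / 2 ^ k) ^ (2 - s) * (1 / 2 ^ k) ^ s := by
        rw [← Real.rpow_add h4]
        have : (2 - s + s : ℝ) = ((2 : ℕ) : ℝ) := by push_cast; ring
        rw [this, Real.rpow_natCast, show (4 : ℝ) = 2 * 2 by norm_num, mul_pow]
        ring
      calc C / 4 ^ k = (C * (1 / 2 ^ k) ^ (2 - s)) * (1 / 2 ^ k) ^ s := by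
            rw [mul_assoc, ← h5]; ring
        _ ≤ 1 * (1 / 2 ^ k) ^ s := mul_le_mul_of_nonneg_right h3 (by positivity)
        _ = (1 / 2 ^ k) ^ s := one_mul _
    intro hfin
    -- lengths are unbounded
    have himg := hfin.image List.length
    obtain ⟨B, hB⟩ := himg.bddAbove
    obtain ⟨a, ha, hmem⟩ := hall (max (max k₀ K) (B + 1)) (le_max_left _ _)
    have := hB (Set.mem_image_of_mem _ hmem)
    rw [ha] at this
    have := le_max_right (max k₀ K) (B + 1)
    omega

lemma phi_injective : Function.Injective phi := by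
  have h0 := tau_gt
  have h1 := tau_lt
  intro i j hij
  have h2 := congrFun hij 0
  have h3 := congrFun hij 1
  fin_cases i <;> fin_cases j <;> simp [phi] at h2 h3 ⊢ <;> exfalso <;> linarith

/-- **The answer to Q1 is yes.**  There are an IFS on the line (five pairwise distinct affine maps)
with attractor `X` containing more than one point and a point `z ∈ X` such that `W_s(z) = X` for
every `0 < s < 2`; in particular for some `s > 1`. -/
theorem result :
    ∃ (l : ℕ) (φ : Fin l → ℝ → ℝ) (X : Set ℝ) (z : ℝ),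
      IsIFS φ ∧ Function.Injective φ ∧ IsAttractor φ X ∧ X.Nontrivial ∧ z ∈ X ∧
      (∀ s : ℝ, 0 < s → s < 2 → W φ X s z = X) ∧ ∃ s : ℝ, 1 < s ∧ W φ X s z = X := by
  refine ⟨5, phi, Set.Icc 0 1, 0, isIFS, phi_injective, isAttractor, ?_, by simp,
    fun s h0 h2 => W_eq h0 h2, 3 / 2, by norm_num, W_eq (by norm_num) (by norm_num)⟩
  exact ⟨0, by simp, 1, by simp, by norm_num⟩

end Pool.Agent.Results.MP_521650_an.DirichletImprovement
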